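import Pool.Agent.H959R2.Deltoid.Homeo

set_option autoImplicit false

open Polynomial

namespace H959.Deltoid

lemma pd0 (z : Fin 2 → ℂ) : MvPolynomial.eval z (MvPolynomial.pderiv 0 F) =
    2 * z 0 * z 1 ^ 2 - 12 * z 0 ^ 2 + 18 * z 1 := by
  unfold F
  have h4 : (4 : MvPolynomial (Fin 2) ℂ) = MvPolynomial.C 4 := (map_ofNat _ 4).symm
  have h18 : (18 : MvPolynomial (Fin 2) ℂ) = MvPolynomial.C 18 := (map_ofNat _ 18).symm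
  have h27 : (27 : MvPolynomial (Fin 2) ℂ) = MvPolynomial.C 27 := (map_ofNat _ 27).symm
  rw [h4, h18, h27]
  simp [map_add, map_sub, Derivation.leibniz, Derivation.leibniz_pow, MvPolynomial.pderiv_X]
  ring

lemma pd1 (z : Fin 2 → ℂ) : MvPolynomial.eval z (MvPolynomial.pderiv 1 F) =
    2 * z 0 ^ 2 * z 1 - 12 * z 1 ^ 2 + 18 * z 0 := by
  unfold F
  have h4 : (4 : MvPolynomial (Fin 2) ℂ) = MvPolynomial.C 4 := (map_ofNat _ 4).symm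
  have h18 : (18 : MvPolynomial (Fin 2) ℂ) = MvPolynomial.C 18 := (map_ofNat _ 18).symm
  have h27 : (27 : MvPolynomial (Fin 2) ℂ) = MvPolynomial.C 27 := (map_ofNat _ 27).symm
  rw [h4, h18, h27]
  simp [map_add, map_sub, Derivation.leibniz, Derivation.leibniz_pow, MvPolynomial.pderiv_X]
  ring

lemma sing_s {s : ℂ} (hs : s ≠ 0) (h : MvPolynomial.eval (par s) (MvPolynomial.pderiv 0 F) = 0) :
    s ^ 3 = 1 := by
  rw [pd0] at h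
  simp only [par, Matrix.cons_val_zero, Matrix.cons_val_one] at h
  have h2 : (s ^ 3 - 1) ^ 3 = 0 := by
    field_simp at h
    linear_combination h / 4
  have := (pow_eq_zero_iff three_ne_zero).1 h2
  linear_combination this

/-- a punctured star-shaped neighbourhood is preconnected -/
lemma star_preconnected {W : Set ℂ} (hstar : ∀ u ∈ W, ∀ l : ℝ, 0 < l → l ≤ 1 → (l : ℂ) * u ∈ W)
    {η : ℝ} (hη : 0 < η) (hdisc : ∀ u : ℂ, u ≠ 0 → ‖u‖ < η → u ∈ W) (h0 : ∀ u ∈ W, u ≠ 0) :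
    IsPreconnected W := by
  have hD : IsPreconnected (Complex.exp '' {z : ℂ | z.re < Real.log η}) := by
    apply IsPreconnected.image _ _ Complex.continuous_exp.continuousOn
    exact (convex_halfSpace_re_lt (Real.log η)).isPreconnected
  have hDeq : Complex.exp '' {z : ℂ | z.re < Real.log η} = {u : ℂ | u ≠ 0 ∧ ‖u‖ < η} := by
    ext u
    constructor
    · rintro ⟨z, hz, rfl⟩
      refine ⟨Complex.exp_ne_zero z, ?_⟩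
      rw [Complex.norm_exp]
      calc Real.exp z.re < Real.exp (Real.log η) := Real.exp_lt_exp.2 hz
        _ = η := Real.exp_log hη
    · rintro ⟨hu, hn⟩
      refine ⟨Complex.log u, ?_, Complex.exp_log hu⟩
      show (Complex.log u).re < Real.log η
      rw [Complex.log_re]
      exact Real.log_lt_log (norm_pos_iff.2 hu) hn
  rw [hDeq] at hD
  have hmem : ((η / 2 : ℝ) : ℂ) ∈ W := by
    apply hdisc
    · exact_mod_cast (by positivity : (η / 2 : ℝ) ≠ 0)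
    · rw [Complex.norm_real, Real.norm_of_nonneg (by positivity)]; linarith
  apply isPreconnected_of_forall ((η / 2 : ℝ) : ℂ)
  intro u hu
  have hu0 := h0 u hu
  refine ⟨((fun l : ℝ => (l : ℂ) * u) '' Set.Ioc 0 1) ∪ {u : ℂ | u ≠ 0 ∧ ‖u‖ < η}, ?_, ?_, ?_, ?_⟩
  · rintro v (⟨l, hl, rfl⟩ | ⟨hv, hv'⟩)
    · exact hstar u hu l hl.1 hl.2
    · exact hdisc v hv hv'
  · right
    refine ⟨?_, ?_⟩
    · exact_mod_cast (by positivity : (η / 2 : ℝ) ≠ 0)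
    · rw [Complex.norm_real, Real.norm_of_nonneg (by positivity)]; linarith
  · left
    exact ⟨1, by simp, by simp⟩
  · have hseg : IsPreconnected ((fun l : ℝ => (l : ℂ) * u) '' Set.Ioc 0 1) := by
      apply isPreconnected_Ioc.image
      fun_prop
    set l : ℝ := min 1 (η / (2 * ‖u‖)) with hl
    have hun : 0 < ‖u‖ := norm_pos_iff.2 hu0
    have hl0 : 0 < l := by rw [hl]; positivity
    apply IsPreconnected.union ((l : ℂ) * u) _ _ hseg hD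
    · exact ⟨l, ⟨hl0, min_le_left _ _⟩, rfl⟩
    · refine ⟨mul_ne_zero (by exact_mod_cast hl0.ne') hu0, ?_⟩
      rw [norm_mul, Complex.norm_real, Real.norm_of_nonneg hl0.le]
      calc l * ‖u‖ ≤ η / (2 * ‖u‖) * ‖u‖ := by gcongr; exact min_le_right _ _
        _ = η / 2 := by field_simp
        _ < η := by linarith

/-- the squared distance to the cusp in the coordinate `s = s₀ (1 + u)` -/
noncomputable def hh (u : ℂ) : ℝ :=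
  ‖2 * (1 + u) + ((1 + u)⁻¹) ^ 2 - 3‖ ^ 2 + ‖(1 + u) ^ 2 + 2 * (1 + u)⁻¹ - 3‖ ^ 2

lemma hh_small {u : ℂ} (hu : 1 + u ≠ 0) {δ : ℝ} (hδ0 : 0 < δ) (hδ : δ < 1 / 1000) (h : hh u < δ ^ 2) :
    ‖u‖ < 1 / 10 := by
  set a := 2 * (1 + u) + ((1 + u)⁻¹) ^ 2 - 3 with ha
  set b := (1 + u) ^ 2 + 2 * (1 + u)⁻¹ - 3 with hb
  have h' : ‖a‖ ^ 2 + ‖b‖ ^ 2 < δ ^ 2 := h
  have ha' : ‖a‖ < δ := by
    apply lt_of_pow_lt_pow_left₀ 2 hδ0.le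
    nlinarith [sq_nonneg ‖b‖]
  have hb' : ‖b‖ < δ := by
    apply lt_of_pow_lt_pow_left₀ 2 hδ0.le
    nlinarith [sq_nonneg ‖a‖]
  have key : 3 * u ^ 2 = -a * (1 + u) ^ 2 + 2 * b * (1 + u) := by
    rw [ha, hb]; field_simp; ring
  have hn : 3 * ‖u‖ ^ 2 ≤ δ * (1 + ‖u‖) ^ 2 + 2 * δ * (1 + ‖u‖) := by
    have h1 : ‖1 + u‖ ≤ 1 + ‖u‖ := by
      calc ‖1 + u‖ ≤ ‖(1 : ℂ)‖ + ‖u‖ := norm_add_le _ _
        _ = 1 + ‖u‖ := by simp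
    calc 3 * ‖u‖ ^ 2 = ‖3 * u ^ 2‖ := by simp
      _ = ‖-a * (1 + u) ^ 2 + 2 * b * (1 + u)‖ := by rw [key]
      _ ≤ ‖-a * (1 + u) ^ 2‖ + ‖2 * b * (1 + u)‖ := norm_add_le _ _
      _ = ‖a‖ * ‖1 + u‖ ^ 2 + 2 * ‖b‖ * ‖1 + u‖ := by simp
      _ ≤ δ * (1 + ‖u‖) ^ 2 + 2 * δ * (1 + ‖u‖) := by gcongr
  by_contra hge
  push Not at hge
  have hr := hge
  set r := ‖u‖
  have e1 : 1 + r ≤ 11 * r := by linarith
  have e2 : (1 + r) ^ 2 ≤ 121 * r ^ 2 := by nlinarith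
  have e3 : (1 + r) ≤ 110 * r ^ 2 := by nlinarith
  have e4 : δ * (1 + r) ^ 2 ≤ 1 / 1000 * (121 * r ^ 2) := by
    apply mul_le_mul hδ.le e2 (by positivity) (by norm_num)
  have e5 : 2 * δ * (1 + r) ≤ 2 * (1 / 1000) * (110 * r ^ 2) := by
    apply mul_le_mul (by linarith) e3 (by positivity) (by norm_num)
  nlinarith

lemma aux_mono {l r P Q : ℝ} (hl0 : 0 < l) (hl1 : l ≤ 1) (hr0 : 0 ≤ r) (hr : r ≤ 1 / 10)
    (hP : 2 ≤ P) (hQ : 9 / 10 ≤ Q) :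
    l ^ 2 * (P + 2 * ((1 - l) * r)) * (Q + (1 - l) * r) ^ 2 ≤ P * Q ^ 2 := by
  have ht : 0 ≤ 1 - l := by linarith
  have hd0 : 0 ≤ (1 - l) * r := by positivity
  have hd1 : (1 - l) * r ≤ (1 - l) / 10 := by nlinarith
  set t := 1 - l with htt
  have hl : l = 1 - t := by rw [htt]; ring
  have ht1 : t < 1 := by linarith
  have hP1 : P + 2 * (t * r) ≤ P * (1 + t / 10) := by nlinarith
  have hQ1 : Q + t * r ≤ Q * (1 + t / 9) := by nlinarith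
  have h1 : l ^ 2 * (P + 2 * (t * r)) * (Q + t * r) ^ 2 ≤
      l ^ 2 * (P * (1 + t / 10)) * (Q * (1 + t / 9)) ^ 2 := by
    gcongr
  have h2 : l ^ 2 * (1 + t / 10) * (1 + t / 9) ^ 2 ≤ 1 := by
    have a1 : l * (1 + t / 10) ≤ 1 := by rw [hl]; nlinarith
    have a2 : (1 + t / 9) ^ 2 ≤ 1 + t := by nlinarith
    have a3 : l * (1 + t / 9) ^ 2 ≤ 1 := by
      calc l * (1 + t / 9) ^ 2 ≤ l * (1 + t) := by gcongr
        _ ≤ 1 := by rw [hl]; nlinarith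
    calc l ^ 2 * (1 + t / 10) * (1 + t / 9) ^ 2 = (l * (1 + t / 10)) * (l * (1 + t / 9) ^ 2) := by ring
      _ ≤ 1 * 1 := by gcongr
      _ = 1 := by norm_num
  calc l ^ 2 * (P + 2 * (t * r)) * (Q + t * r) ^ 2 ≤ l ^ 2 * (P * (1 + t / 10)) * (Q * (1 + t / 9)) ^ 2 := h1
    _ = P * Q ^ 2 * (l ^ 2 * (1 + t / 10) * (1 + t / 9) ^ 2) := by ring
    _ ≤ P * Q ^ 2 * 1 := by gcongr
    _ = P * Q ^ 2 := by ring

lemma one_add_ne {u : ℂ} (hu : ‖u‖ < 1 / 10) : 1 + u ≠ 0 := by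
  intro h
  have : u = -1 := by linear_combination h
  rw [this] at hu
  norm_num at hu

lemma norm_one_add_ge {u : ℂ} (hu : ‖u‖ < 1 / 10) : 9 / 10 ≤ ‖1 + u‖ := by
  have : ‖(1 : ℂ)‖ ≤ ‖1 + u‖ + ‖u‖ := by
    calc ‖(1 : ℂ)‖ = ‖(1 + u) - u‖ := by ring_nf
      _ ≤ ‖1 + u‖ + ‖u‖ := norm_sub_le _ _
  rw [norm_one] at this
  linarith

lemma hh_eq {u : ℂ} (hu : ‖u‖ < 1 / 10) :
    hh u = (‖u‖ ^ 2 * ‖3 + 2 * u‖ / ‖1 + u‖ ^ 2) ^ 2 + (‖u‖ ^ 2 * ‖3 + u‖ / ‖1 + u‖) ^ 2 := by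
  have h1 := one_add_ne hu
  unfold hh
  have e1 : 2 * (1 + u) + ((1 + u)⁻¹) ^ 2 - 3 = u ^ 2 * (3 + 2 * u) / (1 + u) ^ 2 := by
    field_simp; ring
  have e2 : (1 + u) ^ 2 + 2 * (1 + u)⁻¹ - 3 = u ^ 2 * (3 + u) / (1 + u) := by
    field_simp; ring
  rw [e1, e2]
  simp only [norm_div, norm_mul, norm_pow]

lemma norm_shift (a u : ℂ) {l : ℝ} (hl1 : l ≤ 1) (c : ℝ) (hc : 0 ≤ c) :
    ‖a + c * (l * u)‖ ≤ ‖a + c * u‖ + c * ((1 - l) * ‖u‖) := by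
  have : a + c * (l * u) = (a + c * u) - c * ((1 - l : ℝ) * u) := by push_cast; ring
  rw [this]
  calc _ ≤ ‖a + c * u‖ + ‖(c : ℂ) * (((1 - l : ℝ) : ℂ) * u)‖ := norm_sub_le _ _
    _ = ‖a + c * u‖ + c * ((1 - l) * ‖u‖) := by
      rw [norm_mul, norm_mul, Complex.norm_real, Complex.norm_real, Real.norm_of_nonneg hc,
        Real.norm_of_nonneg (by linarith : 0 ≤ 1 - l)]

lemma norm_shift' (a u : ℂ) {l : ℝ} (hl1 : l ≤ 1) :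
    ‖a + u‖ ≤ ‖a + l * u‖ + ((1 - l) * ‖u‖) := by
  have : a + u = (a + l * u) + ((1 - l : ℝ) * u) := by push_cast; ring
  calc ‖a + u‖ = ‖(a + l * u) + ((1 - l : ℝ) * u)‖ := by rw [← this]
    _ ≤ ‖a + l * u‖ + ‖(((1 - l : ℝ) : ℂ) * u)‖ := norm_add_le _ _
    _ = ‖a + l * u‖ + ((1 - l) * ‖u‖) := by
      rw [norm_mul, Complex.norm_real, Real.norm_of_nonneg (by linarith : 0 ≤ 1 - l)]

lemma hh_mono {u : ℂ} (hu : ‖u‖ < 1 / 10) {l : ℝ} (hl0 : 0 < l) (hl1 : l ≤ 1) :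
    hh ((l : ℂ) * u) ≤ hh u := by
  have hlu : ‖(l : ℂ) * u‖ = l * ‖u‖ := by
    rw [norm_mul, Complex.norm_real, Real.norm_of_nonneg hl0.le]
  have hlu' : ‖(l : ℂ) * u‖ < 1 / 10 := by
    rw [hlu]
    calc l * ‖u‖ ≤ 1 * ‖u‖ := by gcongr
      _ < 1 / 10 := by linarith
  rw [hh_eq hu, hh_eq hlu', hlu]
  have hQ := norm_one_add_ge hlu'
  have hQ' := norm_one_add_ge hu
  have hP : 2 ≤ ‖3 + 2 * u‖ := by
    have : ‖(3 : ℂ)‖ ≤ ‖3 + 2 * u‖ + ‖2 * u‖ := by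
      calc ‖(3 : ℂ)‖ = ‖(3 + 2 * u) - 2 * u‖ := by ring_nf
        _ ≤ _ := norm_sub_le _ _
    rw [norm_mul] at this
    norm_num at this
    linarith
  have hP' : 2 ≤ ‖3 + u‖ := by
    have : ‖(3 : ℂ)‖ ≤ ‖3 + u‖ + ‖u‖ := by
      calc ‖(3 : ℂ)‖ = ‖(3 + u) - u‖ := by ring_nf
        _ ≤ _ := norm_sub_le _ _
    norm_num at this
    linarith
  have s1 : ‖(3 : ℂ) + 2 * (l * u)‖ ≤ ‖3 + 2 * u‖ + 2 * ((1 - l) * ‖u‖) := by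
    have := norm_shift 3 u hl1 2 (by norm_num)
    simpa using this
  have s2 : ‖(3 : ℂ) + (l * u)‖ ≤ ‖3 + u‖ + 2 * ((1 - l) * ‖u‖) := by
    have := norm_shift 3 u hl1 1 (by norm_num)
    simp at this
    have h0 : 0 ≤ (1 - l) * ‖u‖ := mul_nonneg (by linarith) (norm_nonneg _)
    linarith
  have s3 : ‖1 + u‖ ≤ ‖1 + (l : ℂ) * u‖ + ((1 - l) * ‖u‖) := norm_shift' 1 u hl1
  have hd : 0 ≤ (1 - l) * ‖u‖ := mul_nonneg (by linarith) (norm_nonneg _)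
  have m1 := aux_mono (P := ‖3 + 2 * u‖) (Q := ‖1 + (l : ℂ) * u‖) hl0 hl1 (norm_nonneg u) hu.le hP hQ
  have m2 := aux_mono (P := ‖3 + u‖) (Q := ‖1 + (l : ℂ) * u‖) hl0 hl1 (norm_nonneg u) hu.le hP' hQ
  have g1 : (l * ‖u‖) ^ 2 * ‖3 + 2 * (l * u)‖ / ‖1 + (l : ℂ) * u‖ ^ 2 ≤ ‖u‖ ^ 2 * ‖3 + 2 * u‖ / ‖1 + u‖ ^ 2 := by
    rw [div_le_div_iff₀ (by positivity) (by positivity)]
    have : l ^ 2 * ‖(3 : ℂ) + 2 * (l * u)‖ * ‖1 + u‖ ^ 2 ≤ ‖3 + 2 * u‖ * ‖1 + (l : ℂ) * u‖ ^ 2 := by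
      refine le_trans ?_ m1
      gcongr
    calc (l * ‖u‖) ^ 2 * ‖3 + 2 * (l * u)‖ * ‖1 + u‖ ^ 2
        = ‖u‖ ^ 2 * (l ^ 2 * ‖3 + 2 * (l * u)‖ * ‖1 + u‖ ^ 2) := by ring
      _ ≤ ‖u‖ ^ 2 * (‖3 + 2 * u‖ * ‖1 + (l : ℂ) * u‖ ^ 2) := by gcongr
      _ = _ := by ring
  have g2 : (l * ‖u‖) ^ 2 * ‖3 + (l * u)‖ / ‖1 + (l : ℂ) * u‖ ≤ ‖u‖ ^ 2 * ‖3 + u‖ / ‖1 + u‖ := by
    rw [div_le_div_iff₀ (by positivity) (by positivity)]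
    have : l ^ 2 * ‖(3 : ℂ) + (l * u)‖ * ‖1 + u‖ ≤ ‖3 + u‖ * ‖1 + (l : ℂ) * u‖ := by
      have hq0 : 0 < ‖1 + (l : ℂ) * u‖ := by positivity
      have h1 : l ^ 2 * ‖(3 : ℂ) + (l * u)‖ * ‖1 + u‖ ≤
          l ^ 2 * (‖3 + u‖ + 2 * ((1 - l) * ‖u‖)) * (‖1 + (l : ℂ) * u‖ + ((1 - l) * ‖u‖)) := by gcongr
      have h2 : l ^ 2 * (‖3 + u‖ + 2 * ((1 - l) * ‖u‖)) * (‖1 + (l : ℂ) * u‖ + ((1 - l) * ‖u‖)) *
          ‖1 + (l : ℂ) * u‖ ≤ ‖3 + u‖ * ‖1 + (l : ℂ) * u‖ ^ 2 := by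
        refine le_trans ?_ m2
        have : ‖1 + (l : ℂ) * u‖ ≤ ‖1 + (l : ℂ) * u‖ + (1 - l) * ‖u‖ := by linarith
        calc _ ≤ l ^ 2 * (‖3 + u‖ + 2 * ((1 - l) * ‖u‖)) * (‖1 + (l : ℂ) * u‖ + ((1 - l) * ‖u‖)) *
            (‖1 + (l : ℂ) * u‖ + (1 - l) * ‖u‖) := by gcongr
          _ = _ := by ring
      have h3 : l ^ 2 * (‖3 + u‖ + 2 * ((1 - l) * ‖u‖)) * (‖1 + (l : ℂ) * u‖ + ((1 - l) * ‖u‖)) ≤
          ‖3 + u‖ * ‖1 + (l : ℂ) * u‖ := by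
        apply le_of_mul_le_mul_right _ hq0
        calc _ ≤ ‖3 + u‖ * ‖1 + (l : ℂ) * u‖ ^ 2 := h2
          _ = _ := by ring
      exact h1.trans h3
    calc (l * ‖u‖) ^ 2 * ‖3 + (l * u)‖ * ‖1 + u‖
        = ‖u‖ ^ 2 * (l ^ 2 * ‖3 + (l * u)‖ * ‖1 + u‖) := by ring
      _ ≤ ‖u‖ ^ 2 * (‖3 + u‖ * ‖1 + (l : ℂ) * u‖) := by gcongr
      _ = _ := by ring
  gcongr

end H959.Deltoid
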