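import Pool.Agent.H959R2.Deltoid.Cusp

set_option autoImplicit false

open Polynomial

namespace H959.Deltoid

/-- the set of unibranch singular points, as in the statement -/
def Sing : Set (Fin 2 → ℂ) := {p : Fin 2 → ℂ | MvPolynomial.eval p F = 0 ∧
        (∀ i : Fin 2, MvPolynomial.eval p (MvPolynomial.pderiv i F) = 0) ∧
        ∃ ε : ℝ, 0 < ε ∧ ∀ δ : ℝ, 0 < δ → δ < ε →
          IsPreconnected {q : Fin 2 → ℂ | MvPolynomial.eval q F = 0 ∧ q ≠ p ∧
            ‖q 0 - p 0‖ ^ 2 + ‖q 1 - p 1‖ ^ 2 < δ ^ 2}}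

lemma exists_par {p : Fin 2 → ℂ} (hp : MvPolynomial.eval p F = 0) : ∃ s : ℂ, s ≠ 0 ∧ par s = p := by
  obtain ⟨s, hs⟩ := parMap_bij.2 ⟨p, hp⟩
  exact ⟨s.1, s.2, congrArg Subtype.val hs⟩

lemma Sing_finite : Sing.Finite := by
  have h1 : {s : ℂ | s ^ 3 = 1}.Finite := by
    have : {s : ℂ | s ^ 3 = 1} ⊆ ↑((X ^ 3 - 1 : ℂ[X]).roots.toFinset) := by
      intro s hs
      have hs' : s ^ 3 = 1 := hs
      have hne : (X ^ 3 - 1 : ℂ[X]) ≠ 0 := X_pow_sub_C_ne_zero (by norm_num) 1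
      simp [hne, hs']
    exact (Finset.finite_toSet _).subset this
  refine (h1.image par).subset ?_
  rintro p ⟨hp, hd, -⟩
  obtain ⟨s, hs, rfl⟩ := exists_par hp
  exact ⟨s, sing_s hs (hd 0), rfl⟩

lemma dist_eq {s₀ u : ℂ} (h₀ : s₀ ^ 3 = 1) (hu : 1 + u ≠ 0) :
    ‖par (s₀ * (1 + u)) 0 - par s₀ 0‖ ^ 2 + ‖par (s₀ * (1 + u)) 1 - par s₀ 1‖ ^ 2 = hh u := by
  have hs0 : s₀ ≠ 0 := by rintro rfl; norm_num at h₀
  have hn : ‖s₀‖ = 1 := by
    have : ‖s₀‖ ^ 3 = 1 := by rw [← norm_pow, h₀, norm_one]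
    exact (pow_eq_one_iff_of_nonneg (norm_nonneg _) three_ne_zero).1 this
  have hinv : s₀⁻¹ = s₀ ^ 2 := by
    field_simp
    linear_combination -h₀
  have e1 : par (s₀ * (1 + u)) 0 - par s₀ 0 = s₀ * (2 * (1 + u) + ((1 + u)⁻¹) ^ 2 - 3) := by
    simp only [par, Matrix.cons_val_zero]
    rw [mul_inv, hinv]
    linear_combination s₀ * (((1 + u)⁻¹) ^ 2 - 1) * h₀
  have e2 : par (s₀ * (1 + u)) 1 - par s₀ 1 = s₀ ^ 2 * ((1 + u) ^ 2 + 2 * (1 + u)⁻¹ - 3) := by
    simp only [par, Matrix.cons_val_one, Matrix.cons_val_zero]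
    rw [mul_inv, hinv]
    ring
  rw [e1, e2]
  unfold hh
  simp [hn]

lemma mem_Sing {s₀ : ℂ} (h₀ : s₀ ^ 3 = 1) : par s₀ ∈ Sing := by
  have hs0 : s₀ ≠ 0 := by rintro rfl; norm_num at h₀
  have hinv : s₀⁻¹ = s₀ ^ 2 := by
    field_simp
    linear_combination -h₀
  have hp0 : par s₀ 0 = 3 * s₀ := by
    simp only [par, Matrix.cons_val_zero]
    rw [hinv]
    linear_combination s₀ * h₀
  have hp1 : par s₀ 1 = 3 * s₀ ^ 2 := by
    simp only [par, Matrix.cons_val_one, Matrix.cons_val_zero]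
    rw [hinv]
    ring
  refine ⟨par_mem hs0, ?_, 1 / 1000, by norm_num, ?_⟩
  · intro i
    fin_cases i
    · show MvPolynomial.eval (par s₀) (MvPolynomial.pderiv 0 F) = 0
      rw [pd0, hp0, hp1]
      linear_combination 54 * s₀ ^ 2 * h₀
    · show MvPolynomial.eval (par s₀) (MvPolynomial.pderiv 1 F) = 0
      rw [pd1, hp0, hp1]
      linear_combination (-54) * s₀ * h₀
  · intro δ hδ0 hδ
    set W : Set ℂ := {u | u ≠ 0 ∧ ‖u‖ < 1 / 10 ∧ hh u < δ ^ 2} with hW
    have hset : {q : Fin 2 → ℂ | MvPolynomial.eval q F = 0 ∧ q ≠ par s₀ ∧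
            ‖q 0 - par s₀ 0‖ ^ 2 + ‖q 1 - par s₀ 1‖ ^ 2 < δ ^ 2} =
        (fun u => par (s₀ * (1 + u))) '' W := by
      ext q
      constructor
      · rintro ⟨hq, hne, hd⟩
        obtain ⟨s, hs, rfl⟩ := exists_par hq
        set u := s / s₀ - 1 with hu
        have hsu : s = s₀ * (1 + u) := by rw [hu]; field_simp; ring
        have hu1 : 1 + u ≠ 0 := by
          intro h; rw [h, mul_zero] at hsu; exact hs hsu
        rw [hsu, dist_eq h₀ hu1] at hd
        refine ⟨u, ⟨?_, hh_small hu1 hδ0 hδ hd, hd⟩, by show par (s₀ * (1 + u)) = par s; rw [← hsu]⟩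
        rintro h0
        rw [h0, add_zero, mul_one] at hsu
        exact hne (by rw [hsu])
      · rintro ⟨u, ⟨hu0, hu1, hu2⟩, rfl⟩
        have hu3 := one_add_ne hu1
        have hs : s₀ * (1 + u) ≠ 0 := mul_ne_zero hs0 hu3
        refine ⟨par_mem hs, ?_, ?_⟩
        · intro h
          have := par_inj hs hs0 h
          apply hu0
          have h2 : s₀ * u = 0 := by linear_combination this
          exact (mul_eq_zero.1 h2).resolve_left hs0
        · show ‖par (s₀ * (1 + u)) 0 - par s₀ 0‖ ^ 2 + ‖par (s₀ * (1 + u)) 1 - par s₀ 1‖ ^ 2 < δ ^ 2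
          rw [dist_eq h₀ hu3]; exact hu2
    rw [hset]
    have hcont : ContinuousOn (fun u => par (s₀ * (1 + u))) W := by
      apply par_continuousOn.comp (by fun_prop)
      intro u hu
      exact mul_ne_zero hs0 (one_add_ne hu.2.1)
    apply IsPreconnected.image _ _ hcont
    -- `hh` is continuous at `0`
    have hcont0 : ContinuousAt hh 0 := by
      unfold hh
      have h1 : ContinuousAt (fun u : ℂ => (1 + u)⁻¹) 0 := by
        apply ContinuousAt.inv₀ (by fun_prop)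
        simp
      fun_prop
    have hh0 : hh 0 = 0 := by
      unfold hh
      norm_num
    obtain ⟨η, hη0, hη⟩ : ∃ η > 0, ∀ u : ℂ, ‖u‖ < η → hh u < δ ^ 2 := by
      have h2 : ∀ᶠ u in nhds (0 : ℂ), hh u < δ ^ 2 := by
        apply hcont0.eventually_lt_const
        rw [hh0]; positivity
      rw [Metric.eventually_nhds_iff] at h2
      obtain ⟨η, h3, h4⟩ := h2
      exact ⟨η, h3, fun u hu => h4 (by simpa using hu)⟩
    apply star_preconnected (η := min η (1 / 10)) _ (by positivity) _ (fun u hu => hu.1)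
    · rintro u ⟨hu0, hu1, hu2⟩ l hl0 hl1
      refine ⟨mul_ne_zero (by exact_mod_cast hl0.ne') hu0, ?_, lt_of_le_of_lt (hh_mono hu1 hl0 hl1) hu2⟩
      rw [norm_mul, Complex.norm_real, Real.norm_of_nonneg hl0.le]
      calc l * ‖u‖ ≤ 1 * ‖u‖ := by gcongr
        _ < 1 / 10 := by linarith
    · intro u hu0 hu
      exact ⟨hu0, lt_of_lt_of_le hu (min_le_right _ _), hη u (lt_of_lt_of_le hu (min_le_left _ _))⟩

lemma three_le : 3 ≤ Sing.ncard := by
  set w : ℂ := Complex.exp (2 * Real.pi * Complex.I / 3) with hw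
  have hprim : IsPrimitiveRoot w 3 := by
    have := Complex.isPrimitiveRoot_exp 3 (by norm_num)
    simpa using this
  have hw3 : w ^ 3 = 1 := hprim.pow_eq_one
  have h1w : (1 : ℂ) ≠ w := fun h => hprim.ne_one (by norm_num) h.symm
  have h1w2 : (1 : ℂ) ≠ w ^ 2 := fun h => hprim.pow_ne_one_of_pos_of_lt (by norm_num) (by norm_num) h.symm
  have hw0 : w ≠ 0 := Complex.exp_ne_zero _
  have hww2 : w ≠ w ^ 2 := by
    intro h
    apply h1w
    apply mul_left_cancel₀ hw0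
    linear_combination h
  have hw2 : (w ^ 2) ^ 3 = 1 := by rw [← pow_mul, mul_comm, pow_mul, hw3, one_pow]
  have m1 : par 1 ∈ Sing := mem_Sing (by norm_num)
  have m2 : par w ∈ Sing := mem_Sing hw3
  have m3 : par (w ^ 2) ∈ Sing := mem_Sing hw2
  have hcard : ({par 1, par w, par (w ^ 2)} : Set (Fin 2 → ℂ)).ncard = 3 := by
    rw [Set.ncard_eq_three]
    refine ⟨_, _, _, ?_, ?_, ?_, rfl⟩
    · exact fun h => h1w (par_inj one_ne_zero hw0 h)
    · exact fun h => h1w2 (par_inj one_ne_zero (pow_ne_zero _ hw0) h)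
    · exact fun h => hww2 (par_inj hw0 (pow_ne_zero _ hw0) h)
  rw [← hcard]
  apply Set.ncard_le_ncard _ Sing_finite
  rintro p (rfl | rfl | rfl)
  · exact m1
  · exact m2
  · exact m3

end H959.Deltoid
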