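import Pool.Agent.H959R2.Deltoid.Irred

set_option autoImplicit false

open Polynomial

namespace H959.Deltoid

/-- the punctured line -/
abbrev CS : Type := {z : ℂ // z ≠ 0}

/-- the curve -/
abbrev Cur : Type := ↥{z : Fin 2 → ℂ | MvPolynomial.eval z F = 0}

lemma eval_F (z : Fin 2 → ℂ) : MvPolynomial.eval z F =
    z 0 ^ 2 * z 1 ^ 2 - 4 * z 0 ^ 3 - 4 * z 1 ^ 3 + 18 * z 0 * z 1 - 27 := by
  unfold F
  simp [map_add, map_sub, map_mul, map_pow]

/-- the parametrisation -/
noncomputable def par (s : ℂ) : Fin 2 → ℂ := ![2 * s + (s⁻¹) ^ 2, s ^ 2 + 2 * s⁻¹]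

lemma par_mem {s : ℂ} (hs : s ≠ 0) : MvPolynomial.eval (par s) F = 0 := by
  rw [eval_F]
  simp only [par, Matrix.cons_val_zero, Matrix.cons_val_one]
  field_simp
  ring

noncomputable def parMap (s : CS) : Cur := ⟨par s.1, par_mem s.2⟩

lemma eq_x {s x : ℂ} (hs : s ≠ 0) (h : 2 * s + (s⁻¹) ^ 2 = x) : 2 * s ^ 3 - x * s ^ 2 + 1 = 0 := by
  rw [← h]; field_simp; ring

lemma eq_y {s y : ℂ} (hs : s ≠ 0) (h : s ^ 2 + 2 * s⁻¹ = y) : s ^ 3 - y * s + 2 = 0 := by
  rw [← h]; field_simp; ring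

lemma x_of_eq {s x : ℂ} (hs : s ≠ 0) (h : 2 * s ^ 3 - x * s ^ 2 + 1 = 0) : 2 * s + (s⁻¹) ^ 2 = x := by
  field_simp
  linear_combination h

lemma y_of_eq {s y : ℂ} (hs : s ≠ 0) (h : s ^ 3 - y * s + 2 = 0) : s ^ 2 + 2 * s⁻¹ = y := by
  field_simp
  linear_combination h

lemma par_inj {s t : ℂ} (hs : s ≠ 0) (ht : t ≠ 0) (h : par s = par t) : s = t := by
  have h0 := congrFun h 0
  have h1 := congrFun h 1
  simp only [par, Matrix.cons_val_zero, Matrix.cons_val_one] at h0 h1
  by_contra hne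
  have hst : s - t ≠ 0 := sub_ne_zero.2 hne
  have k0 : 2 * s ^ 2 * t ^ 2 = s + t := by
    apply mul_left_cancel₀ hst
    field_simp at h0
    linear_combination h0
  have k1 : (s + t) * (s * t) = 2 := by
    apply mul_left_cancel₀ hst
    field_simp at h1
    linear_combination h1
  have k2 : (s * t) ^ 3 = 1 := by
    linear_combination (s * t) / 2 * k0 + k1 / 2
  have k3 : (s - t) ^ 2 = 0 := by
    have : (s - t) ^ 2 = (s + t) ^ 2 - 4 * (s * t) := by ring
    rw [this, ← k0]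
    linear_combination 4 * s * t * k2
  exact hst (pow_eq_zero_iff (two_ne_zero) |>.1 k3)

lemma par_surj {x y : ℂ} (h : x ^ 2 * y ^ 2 - 4 * x ^ 3 - 4 * y ^ 3 + 18 * x * y - 27 = 0) :
    ∃ s : ℂ, s ≠ 0 ∧ 2 * s + (s⁻¹) ^ 2 = x ∧ s ^ 2 + 2 * s⁻¹ = y := by
  obtain ⟨a, ha⟩ := IsAlgClosed.exists_root (k := ℂ) (X ^ 3 - C x * X ^ 2 + C y * X - C 1) (by
    have : (X ^ 3 - C x * X ^ 2 + C y * X - C 1 : ℂ[X]).degree = 3 := by compute_degree!
    rw [this]; norm_num)
  simp only [IsRoot, eval_sub, eval_add, eval_mul, eval_pow, eval_C, eval_X] at ha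
  have ha0 : a ≠ 0 := by rintro rfl; norm_num at ha
  have key : ((a - x) ^ 2 - 4 * (a ^ 2 - x * a + y)) * (3 * a ^ 2 - 2 * x * a + y) ^ 2 = 0 := by
    linear_combination h + (a ^ 3 - x * a ^ 2 + y * a - 1) * 0 +
      ha * (-4 * x ^ 3 + 18 * x * y - 27 * (a ^ 3 - x * a ^ 2 + y * a + 1))
  rcases mul_eq_zero.1 key with h1 | h1
  · set s := (x - a) / 2 with hs
    have hx : x = a + 2 * s := by rw [hs]; ring
    have h2 : s ^ 2 = a ^ 2 - x * a + y := by
      rw [hs]; linear_combination h1 / 4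
    have h3 : a * s ^ 2 = 1 := by
      rw [h2]; linear_combination ha
    have hs0 : s ≠ 0 := by
      intro h0; rw [h0] at h3; norm_num at h3
    have h4 : a = (s⁻¹) ^ 2 := by
      field_simp; linear_combination h3
    refine ⟨s, hs0, ?_, ?_⟩
    · rw [hx, ← h4]; ring
    · apply y_of_eq hs0
      have : y = s ^ 2 - a ^ 2 + x * a := by linear_combination -h2
      rw [this, hx]
      linear_combination (-2) * h3
  · have h2 : 3 * a ^ 2 - 2 * x * a + y = 0 := (pow_eq_zero_iff two_ne_zero).1 h1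
    refine ⟨a, ha0, ?_, ?_⟩
    · apply x_of_eq ha0
      linear_combination a * h2 - ha
    · apply y_of_eq ha0
      linear_combination 2 * a * h2 * (0) + (-2) * ha + a * h2

lemma parMap_bij : Function.Bijective parMap := by
  constructor
  · rintro ⟨s, hs⟩ ⟨t, ht⟩ h
    have h' : par s = par t := congrArg Subtype.val h
    exact Subtype.ext (par_inj hs ht h')
  · rintro ⟨z, hz⟩
    have hz' : MvPolynomial.eval z F = 0 := hz
    rw [eval_F] at hz'
    obtain ⟨s, hs, h0, h1⟩ := par_surj hz'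
    refine ⟨⟨s, hs⟩, Subtype.ext ?_⟩
    show par s = z
    ext i
    fin_cases i
    · simpa [par] using h0
    · simpa [par] using h1

lemma par_continuousOn : ContinuousOn par {0}ᶜ := by
  intro s hs
  apply ContinuousAt.continuousWithinAt
  rw [continuousAt_pi]
  have hs' : s ≠ 0 := hs
  intro i
  fin_cases i
  · show ContinuousAt (fun s : ℂ => 2 * s + (s⁻¹) ^ 2) s
    exact (continuousAt_const.mul continuousAt_id).add ((continuousAt_inv₀ hs').pow 2)
  · show ContinuousAt (fun s : ℂ => s ^ 2 + 2 * s⁻¹) s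
    exact (continuousAt_id.pow 2).add (continuousAt_const.mul (continuousAt_inv₀ hs'))

lemma parMap_cont : Continuous parMap := by
  apply Continuous.subtype_mk
  exact par_continuousOn.comp_continuous continuous_subtype_val (fun s => s.2)

/-- `s` and `s⁻¹` are bounded in terms of the coordinates -/
lemma bound_s {s y : ℂ} {R : ℝ} (hR : 0 ≤ R) (h : s ^ 3 - y * s + 2 = 0) (hy : ‖y‖ ≤ R) :
    ‖s‖ ≤ R + 2 := by
  by_contra hlt
  push Not at hlt
  have h1 : s ^ 3 = y * s - 2 := by linear_combination h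
  have h2 : ‖s‖ ^ 3 ≤ R * ‖s‖ + 2 := by
    rw [← norm_pow, h1]
    calc ‖y * s - 2‖ ≤ ‖y * s‖ + ‖(2 : ℂ)‖ := norm_sub_le _ _
      _ = ‖y‖ * ‖s‖ + 2 := by rw [norm_mul]; simp
      _ ≤ R * ‖s‖ + 2 := by gcongr
  nlinarith [mul_pos (by linarith : (0:ℝ) < ‖s‖) (by linarith : (0:ℝ) < ‖s‖), sq_nonneg (‖s‖)]

lemma parMap_proper : IsProperMap parMap := by
  have hΓ : IsClosed {z : Fin 2 → ℂ | MvPolynomial.eval z F = 0} := by
    have : Continuous fun z : Fin 2 → ℂ => MvPolynomial.eval z F := by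
      simp only [eval_F]; fun_prop
    exact isClosed_eq this continuous_const
  haveI : LocallyCompactSpace Cur := hΓ.locallyCompactSpace
  rw [isProperMap_iff_isCompact_preimage]
  refine ⟨parMap_cont, fun K hK => ?_⟩
  have hK' : IsCompact ((↑) '' K : Set (Fin 2 → ℂ)) := hK.image continuous_subtype_val
  obtain ⟨R, hR⟩ := hK'.isBounded.exists_norm_le
  set R' := max R 0 with hR'
  set M := R' + 2 with hM
  have hR0 : 0 ≤ R' := le_max_right _ _
  have hM0 : 0 < M := by rw [hM]; linarith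
  set A : Set CS := {s | ‖s.1‖ ≤ M ∧ M⁻¹ ≤ ‖s.1‖} with hA
  have hAc : IsCompact A := by
    rw [Subtype.isCompact_iff]
    have : ((↑) '' A : Set ℂ) = Metric.closedBall 0 M ∩ {z | M⁻¹ ≤ ‖z‖} := by
      ext z
      constructor
      · rintro ⟨s, hs, rfl⟩
        exact ⟨by simpa using hs.1, hs.2⟩
      · rintro ⟨h1, h2⟩
        have h2' : M⁻¹ ≤ ‖z‖ := h2
        have hz : z ≠ 0 := by
          rintro rfl
          rw [norm_zero] at h2'
          have := inv_pos.2 hM0
          linarith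
        exact ⟨⟨z, hz⟩, ⟨by simpa using h1, h2⟩, rfl⟩
    rw [this]
    exact (isCompact_closedBall _ _).inter_right (isClosed_le continuous_const continuous_norm)
  refine hAc.of_isClosed_subset (hK.isClosed.preimage parMap_cont) ?_
  intro s hs
  have h1 : ‖par s.1‖ ≤ R' := le_trans (hR _ ⟨parMap s, hs, rfl⟩) (le_max_left _ _)
  have hx : ‖par s.1 0‖ ≤ R' := le_trans (norm_le_pi_norm _ _) h1
  have hy : ‖par s.1 1‖ ≤ R' := le_trans (norm_le_pi_norm _ _) h1
  have ex := eq_x (x := par s.1 0) s.2 rfl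
  have ey := eq_y (y := par s.1 1) s.2 rfl
  refine ⟨bound_s hR0 ey hy, ?_⟩
  have hinv : ‖(s.1)⁻¹‖ ≤ M := by
    apply bound_s hR0 (y := par s.1 0) _ hx
    have hs0 := s.2
    field_simp
    linear_combination ex
  rw [norm_inv] at hinv
  exact inv_le_of_inv_le₀ (norm_pos_iff.2 s.2) hinv

noncomputable def parHomeo : CS ≃ₜ Cur :=
  (Equiv.ofBijective parMap parMap_bij).toHomeomorphOfContinuousClosed parMap_cont
    parMap_proper.isClosedMap

lemma parHomeo_apply (s : CS) : parHomeo s = parMap s := rfl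

theorem cover : IsAddQuotientCoveringMap (parHomeo ∘ fun z : ℂ ↦ (⟨_, z.exp_ne_zero⟩ : {z : ℂ // z ≠ 0}))
    (AddSubgroup.zmultiples (2 * Real.pi * Complex.I)) :=
  Complex.isAddQuotientCoveringMap_exp.homeomorph_comp parHomeo

theorem rank_le (x₀ : Cur) : Module.finrank ℤ (Additive (Abelianization (FundamentalGroup Cur x₀))) ≤ 1 := by
  obtain ⟨z, hz⟩ := cover.surjective x₀
  let e := cover.fundamentalGroupEquiv (x := x₀) ⟨z, hz⟩
  -- the fundamental group is generated by one element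
  have hgen : ∃ g : FundamentalGroup Cur x₀, ∀ h : FundamentalGroup Cur x₀, ∃ n : ℤ, g ^ n = h := by
    refine ⟨e.symm (MulOpposite.op (Multiplicative.ofAdd
      ⟨2 * Real.pi * Complex.I, AddSubgroup.mem_zmultiples _⟩)), fun h => ?_⟩
    obtain ⟨k, hk⟩ := AddSubgroup.mem_zmultiples_iff.1 (Multiplicative.toAdd (e h).unop).2
    refine ⟨k, ?_⟩
    apply e.injective
    rw [map_zpow, MulEquiv.apply_symm_apply]
    apply MulOpposite.unop_injective
    apply Multiplicative.toAdd.injective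
    apply Subtype.ext
    rw [← hk]
    simp
  obtain ⟨g, hg⟩ := hgen
  apply finrank_le_one (Additive.ofMul (Abelianization.of g))
  intro w
  obtain ⟨h, hh⟩ := QuotientGroup.mk_surjective (Additive.toMul w)
  obtain ⟨n, hn⟩ := hg h
  refine ⟨n, ?_⟩
  have : w = Additive.ofMul (Abelianization.of h) := by
    apply Additive.toMul.injective
    exact hh.symm
  rw [this, ← hn, map_zpow]
  rfl

end H959.Deltoid
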