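import Mathlib

set_option autoImplicit false

open Polynomial

namespace H959.Deltoid

/-- the bivariate polynomial `x²y² - 4x³ - 4y³ + 18xy - 27` -/
noncomputable def F : MvPolynomial (Fin 2) ℂ :=
  MvPolynomial.X 0 ^ 2 * MvPolynomial.X 1 ^ 2 - 4 * MvPolynomial.X 0 ^ 3
    - 4 * MvPolynomial.X 1 ^ 3 + 18 * MvPolynomial.X 0 * MvPolynomial.X 1 - 27

/-- the same polynomial in `ℂ[X][Y]`, normalised to be monic -/
noncomputable def G : ℂ[X][X] :=
  X ^ 3 - C (C (1 / 4) * X ^ 2) * X ^ 2 - C (C (9 / 2) * X) * X + C (X ^ 3 + C (27 / 4))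

lemma G_eq : MvPolynomial.C (-1 / 4) * F = Polynomial.Bivariate.equivMvPolynomial ℂ G := by
  unfold F G
  have h4 : (4 : MvPolynomial (Fin 2) ℂ) = MvPolynomial.C 4 := (map_ofNat _ 4).symm
  have h18 : (18 : MvPolynomial (Fin 2) ℂ) = MvPolynomial.C 18 := (map_ofNat _ 18).symm
  have h27 : (27 : MvPolynomial (Fin 2) ℂ) = MvPolynomial.C 27 := (map_ofNat _ 27).symm
  rw [h4, h18, h27]
  simp only [map_add, map_sub, map_mul, map_pow, Polynomial.Bivariate.equivMvPolynomial_X,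
    Polynomial.Bivariate.equivMvPolynomial_C_X, Polynomial.Bivariate.equivMvPolynomial_C_C]
  have e1 : MvPolynomial.C (-1 / 4 : ℂ) * MvPolynomial.C 4 = (-1 : MvPolynomial (Fin 2) ℂ) := by
    rw [← MvPolynomial.C_mul]; norm_num
  have e2 : MvPolynomial.C (-1 / 4 : ℂ) = (-1 : MvPolynomial (Fin 2) ℂ) * MvPolynomial.C (1 / 4) := by
    rw [← MvPolynomial.C_1, ← MvPolynomial.C_neg, ← MvPolynomial.C_mul]; norm_num
  have e3 : MvPolynomial.C (-1 / 4 : ℂ) * MvPolynomial.C 18 = (-1 : MvPolynomial (Fin 2) ℂ) * MvPolynomial.C (9 / 2) := by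
    rw [← MvPolynomial.C_mul, ← MvPolynomial.C_1, ← MvPolynomial.C_neg, ← MvPolynomial.C_mul]; norm_num
  have e4 : MvPolynomial.C (-1 / 4 : ℂ) * MvPolynomial.C 27 = (-1 : MvPolynomial (Fin 2) ℂ) * MvPolynomial.C (27 / 4) := by
    rw [← MvPolynomial.C_mul, ← MvPolynomial.C_1, ← MvPolynomial.C_neg, ← MvPolynomial.C_mul]; norm_num
  linear_combination (MvPolynomial.X 0 ^ 2 * MvPolynomial.X 1 ^ 2) * e2
    - (MvPolynomial.X 0 ^ 3 + MvPolynomial.X 1 ^ 3) * e1 + MvPolynomial.X 0 * MvPolynomial.X 1 * e3 - e4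

lemma no_root (r : ℂ[X]) : G.eval r ≠ 0 := by
  intro h
  have h1 : r ^ 3 - C (1 / 4) * X ^ 2 * r ^ 2 - C (9 / 2) * X * r + (X ^ 3 + C (27 / 4)) = 0 := by
    have := h
    unfold G at this
    simpa [eval_sub, eval_add, eval_mul, eval_pow] using this
  set w : ℂ[X] := X ^ 2 - C 4 * r with hw
  have h2 : w * ((X ^ 2 - w) ^ 2 - C 72 * X) = C 8 * (C 54 - X ^ 3) := by
    have c1 : (C (1/4) : ℂ[X]) * C 4 = 1 := by rw [← C_mul]; norm_num
    have c2 : (C (9/2) : ℂ[X]) * C 64 = C 288 := by rw [← C_mul]; norm_num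
    have c3 : (C (27/4) : ℂ[X]) * C 64 = C 432 := by rw [← C_mul]; norm_num
    have hr : X ^ 2 - w = C 4 * r := by rw [hw]; ring
    rw [hr, hw]
    have k1 : (C 64 : ℂ[X]) = 64 := map_ofNat _ 64
    have k2 : (C 288 : ℂ[X]) = 288 := map_ofNat _ 288
    have k3 : (C 432 : ℂ[X]) = 432 := map_ofNat _ 432
    have k4 : (C 4 : ℂ[X]) = 4 := map_ofNat _ 4
    have k5 : (C 8 : ℂ[X]) = 8 := map_ofNat _ 8
    have k6 : (C 54 : ℂ[X]) = 54 := map_ofNat _ 54
    have k7 : (C 72 : ℂ[X]) = 72 := map_ofNat _ 72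
    rw [k1, k3] at c3
    rw [k1, k2] at c2
    rw [k4] at c1
    rw [k4, k5, k6, k7]
    linear_combination (-64) * h1 - 16 * X ^ 2 * r ^ 2 * c1 - X * r * c2 + c3
  set v : ℂ[X] := X ^ 2 - w with hv
  have hR : (C 8 * (C 54 - X ^ 3) : ℂ[X]).natDegree = 3 := by compute_degree!
  have hne : (C 8 * (C 54 - X ^ 3) : ℂ[X]) ≠ 0 := by
    intro h0; rw [h0] at hR; simp at hR
  have hw0 : w ≠ 0 := by rintro h0; rw [h0] at h2; apply hne; rw [← h2]; ring
  have hA0 : v ^ 2 - C 72 * X ≠ 0 := by rintro h0; rw [h0] at h2; apply hne; rw [← h2]; ring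
  have hdeg : w.natDegree + (v ^ 2 - C 72 * X).natDegree = 3 := by
    rw [← natDegree_mul hw0 hA0, h2, hR]
  have hwv : w = X ^ 2 - v := by rw [hv]; ring
  have h72 : (C 72 * X : ℂ[X]).natDegree = 1 := by compute_degree!
  have hX2 : (X ^ 2 : ℂ[X]).natDegree = 2 := by compute_degree!
  rcases Nat.eq_zero_or_pos v.natDegree with he | he
  · obtain ⟨c, hc⟩ := natDegree_eq_zero.1 he
    rw [hwv, ← hc] at h2
    have := congrArg (fun p : ℂ[X] => p.coeff 3) h2
    have e : (X ^ 2 - C c) * (C c ^ 2 - C 72 * X) =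
        C (-72) * X ^ 3 + C (c ^ 2) * X ^ 2 + C (72 * c) * X + C (- c ^ 3) := by
      simp only [C_mul, C_neg, C_pow]; ring
    rw [e] at this
    have e' : (C 8 * (C 54 - X ^ 3) : ℂ[X]) = C (-8) * X ^ 3 + C (8 * 54) := by
      simp only [C_mul, C_neg]; ring
    rw [e'] at this
    simp only [coeff_add, coeff_C_mul, coeff_X_pow, coeff_X, coeff_C] at this
    norm_num at this
  · have h3 : (v ^ 2).natDegree = 2 * v.natDegree := natDegree_pow v 2
    have h4 : (v ^ 2 - C 72 * X).natDegree = 2 * v.natDegree := by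
      rw [natDegree_sub_eq_left_of_natDegree_lt (by rw [h3, h72]; omega), h3]
    have h5 : v.natDegree = 1 := by omega
    have h6 : w.natDegree = 1 := by omega
    have h7 : w.natDegree = 2 := by
      rw [hwv, natDegree_sub_eq_left_of_natDegree_lt (by rw [hX2]; omega), hX2]
    omega

lemma G_monic : G.Monic := by
  unfold G
  monicity!

lemma G_natDegree : G.natDegree = 3 := by
  unfold G
  compute_degree!

lemma G_irred : Irreducible G := by
  rw [G_monic.irreducible_iff_roots_eq_zero_of_degree_le_three (by rw [G_natDegree]; norm_num)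
    (by rw [G_natDegree])]
  rw [Multiset.eq_zero_iff_forall_notMem]
  intro r hr
  rw [mem_roots G_monic.ne_zero] at hr
  exact no_root r hr

theorem F_irred : Irreducible F := by
  have h1 : Irreducible (Polynomial.Bivariate.equivMvPolynomial ℂ G) :=
    (MulEquiv.irreducible_iff (Polynomial.Bivariate.equivMvPolynomial ℂ)).2 G_irred
  rw [← G_eq] at h1
  have hu : IsUnit (MvPolynomial.C (-1 / 4 : ℂ) : MvPolynomial (Fin 2) ℂ) :=
    (isUnit_iff_ne_zero.2 (by norm_num)).map _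
  exact (irreducible_isUnit_mul hu).1 h1

end H959.Deltoid
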